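import Pool.Agent.H15.E3.ES

/-!
# Large boxes are almost invariant
-/

set_option autoImplicit false

noncomputable section

open Finset Filter Topology

namespace Pool.Agent.H15.E3

theorem inv_of_card {V : Type*} [AddCommGroup V] [DecidableEq V] {K : Finset V} {δ : ℝ}
    {B : Finset V} (hB : B.Nonempty)
    (h : ∀ g ∈ K, 2 * ((B.filter (fun v => v + g ∉ B)).card : ℝ) ≤ δ * B.card) : Inv K δ B := by
  classical
  refine ⟨hB, fun g hg φ hφ => ?_⟩
  have hc : (0 : ℝ) < B.card := by exact_mod_cast hB.card_pos
  set B' : Finset V := B.image (fun v => v + g) with hB'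
  have hinj : Function.Injective (fun v : V => v + g) := fun a b hab => by simpa using hab
  have e1 : ∑ v ∈ B, φ (v + g) = ∑ v ∈ B', φ v := by
    rw [hB', sum_image (fun a _ b _ hab => hinj hab)]
  have ecard : B'.card = B.card := card_image_of_injective B hinj
  have e2 : (B' \ B).card = (B.filter (fun v => v + g ∉ B)).card := by
    have : B' \ B = (B.filter (fun v => v + g ∉ B)).image (fun v => v + g) := by
      ext w
      constructor
      · intro h0
        obtain ⟨h1, hw⟩ := Finset.mem_sdiff.1 h0
        obtain ⟨v, hv, rfl⟩ := Finset.mem_image.1 h1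
        exact Finset.mem_image_of_mem _ (Finset.mem_filter.2 ⟨hv, hw⟩)
      · intro h0
        obtain ⟨v, hv, rfl⟩ := Finset.mem_image.1 h0
        obtain ⟨hv, hw⟩ := Finset.mem_filter.1 hv
        exact Finset.mem_sdiff.2 ⟨Finset.mem_image_of_mem _ hv, hw⟩
    rw [this, card_image_of_injective _ hinj]
  have e3 : (B \ B').card = (B' \ B).card := card_sdiff_comm ecard.symm
  have e4 : ∑ v ∈ B, φ (v + g) - ∑ v ∈ B, φ v = ∑ v ∈ B' \ B, φ v - ∑ v ∈ B \ B', φ v := by
    rw [e1, sum_sdiff_sub_sum_sdiff]
  have bd : ∀ s : Finset V, |∑ v ∈ s, φ v| ≤ s.card := fun s => by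
    refine (abs_sum_le_sum_abs _ _).trans ((sum_le_sum fun v _ => hφ v).trans ?_)
    simp
  have e5 : |∑ v ∈ B, φ (v + g) - ∑ v ∈ B, φ v| ≤ 2 * ((B.filter (fun v => v + g ∉ B)).card : ℝ) := by
    rw [e4]
    have h1 := bd (B' \ B)
    have h2 := bd (B \ B')
    rw [e3] at h2
    rw [e2] at h1 h2
    rw [abs_le] at h1 h2 ⊢
    constructor <;> linarith
  simp only [av]
  rw [← sub_div, abs_div, Nat.abs_cast, div_le_iff₀ hc]
  exact e5.trans (h g hg)

/-- **large boxes are almost invariant**, at all positions -/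
theorem inv_box {ι : Type*} [Fintype ι] [DecidableEq ι] (K : Finset (ι → ℤ)) {δ : ℝ}
    (hδ : 0 < δ) : ∃ L : ℕ, ∀ (a : ι → ℤ) (N : ι → ℕ), (∀ d, L ≤ N d) →
      Inv K δ (Fintype.piFinset fun d => Finset.Ico (a d) (a d + N d)) := by
  classical
  -- a bound for all coordinates of all shifts
  obtain ⟨G, hG⟩ : ∃ G : ℕ, ∀ g ∈ K, ∀ d, |g d| ≤ G := by
    refine ⟨K.sup fun g => univ.sup fun d => (g d).natAbs, fun g hg d => ?_⟩
    have h1 : (g d).natAbs ≤ univ.sup fun d => (g d).natAbs :=
      Finset.le_sup (f := fun d => (g d).natAbs) (mem_univ d)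
    have h2 : (univ.sup fun d => (g d).natAbs) ≤ K.sup fun g => univ.sup fun d => (g d).natAbs :=
      Finset.le_sup (f := fun g : ι → ℤ => univ.sup fun d => (g d).natAbs) hg
    rw [Int.abs_eq_natAbs]
    exact_mod_cast h1.trans h2
  obtain ⟨L, hL⟩ := exists_nat_gt (2 * (Fintype.card ι * (G : ℝ)) / δ)
  refine ⟨L + 1, fun a N hN => ?_⟩
  set B : Finset (ι → ℤ) := Fintype.piFinset fun d => Finset.Ico (a d) (a d + N d) with hB
  have hcard : ∀ d, (Finset.Ico (a d) (a d + N d)).card = N d := fun d => by
    rw [Int.card_Ico]; simp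
  have hBc : B.card = ∏ d, N d := by
    rw [hB, Fintype.card_piFinset]
    exact prod_congr rfl fun d _ => hcard d
  have hBn : B.Nonempty := by
    rw [← card_pos, hBc]
    exact prod_pos fun d _ => by have := hN d; omega
  refine inv_of_card hBn fun g hg => ?_
  have sub : B.filter (fun v => v + g ∉ B) ⊆
      univ.biUnion fun d => B.filter fun v => v d + g d ∉ Finset.Ico (a d) (a d + N d) := by
    intro v hv
    rw [mem_filter, hB, Fintype.mem_piFinset] at hv
    obtain ⟨h1, h2⟩ := hv
    rw [Fintype.mem_piFinset, not_forall] at h2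
    obtain ⟨d, hd⟩ := h2
    rw [mem_biUnion]
    refine ⟨d, mem_univ d, ?_⟩
    rw [mem_filter, hB, Fintype.mem_piFinset]
    exact ⟨h1, hd⟩
  have one : ∀ d, (((B.filter fun v => v d + g d ∉ Finset.Ico (a d) (a d + N d)).card : ℕ) : ℝ)
      * N d ≤ G * B.card := by
    intro d
    have e1 : (B.filter fun v => v d + g d ∉ Finset.Ico (a d) (a d + N d))
        = Fintype.piFinset (fun d' => if d' = d then
            (Finset.Ico (a d) (a d + N d)).filter (fun x => x + g d ∉ Finset.Ico (a d) (a d + N d))
            else Finset.Ico (a d') (a d' + N d')) := by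
      ext v
      rw [mem_filter, hB, Fintype.mem_piFinset, Fintype.mem_piFinset]
      constructor
      · rintro ⟨h1, h2⟩ d'
        by_cases hd : d' = d
        · subst hd
          rw [if_pos rfl, mem_filter]
          exact ⟨h1 d', h2⟩
        · rw [if_neg hd]; exact h1 d'
      · intro h1
        refine ⟨fun d' => ?_, ?_⟩
        · have := h1 d'
          by_cases hd : d' = d
          · subst hd
            rw [if_pos rfl, mem_filter] at this
            exact this.1
          · rwa [if_neg hd] at this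
        · have := h1 d
          rw [if_pos rfl, mem_filter] at this
          exact this.2
    have e2 : ((Finset.Ico (a d) (a d + N d)).filter
        (fun x => x + g d ∉ Finset.Ico (a d) (a d + N d))).card ≤ G := by
      have hs : (Finset.Ico (a d) (a d + N d)).filter
          (fun x => x + g d ∉ Finset.Ico (a d) (a d + N d)) ⊆
          Finset.Ico (a d) (a d - g d) ∪ Finset.Ico (a d + N d - g d) (a d + N d) := by
        intro x hx
        rw [mem_filter, mem_Ico] at hx
        rw [mem_union, mem_Ico, mem_Ico]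
        have h3 := hx.2
        rw [mem_Ico] at h3
        omega
      have h4 := (abs_le.1 (hG g hg d))
      have hc1 := card_le_card hs
      have hc2 := card_union_le (Finset.Ico (a d) (a d - g d))
        (Finset.Ico (a d + N d - g d) (a d + N d))
      rw [Int.card_Ico, Int.card_Ico] at hc2
      have h5 : (a d - g d - a d).toNat + (a d + N d - (a d + N d - g d)).toNat ≤ G := by omega
      exact hc1.trans (hc2.trans h5)
    have e3 : (B.filter fun v => v d + g d ∉ Finset.Ico (a d) (a d + N d)).card
        = ((Finset.Ico (a d) (a d + N d)).filter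
            (fun x => x + g d ∉ Finset.Ico (a d) (a d + N d))).card
          * ∏ d' ∈ univ.erase d, N d' := by
      rw [e1, Fintype.card_piFinset, ← mul_prod_erase univ _ (mem_univ d), if_pos rfl]
      congr 1
      refine prod_congr rfl fun d' hd' => ?_
      rw [if_neg (ne_of_mem_erase hd')]
      exact hcard d'
    have e4 : B.card = N d * ∏ d' ∈ univ.erase d, N d' := by
      rw [hBc, mul_prod_erase univ _ (mem_univ d)]
    rw [e3, e4]
    push_cast
    have e5 : (((Finset.Ico (a d) (a d + N d)).filter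
        (fun x => x + g d ∉ Finset.Ico (a d) (a d + N d))).card : ℝ) ≤ G := by exact_mod_cast e2
    have e6 : (0 : ℝ) ≤ (∏ d' ∈ univ.erase d, (N d' : ℝ)) * N d := by positivity
    nlinarith [mul_le_mul_of_nonneg_right e5 e6]
  have hcN : ∀ d, ((L : ℝ) + 1) ≤ N d := fun d => by exact_mod_cast hN d
  have hL0 : (0 : ℝ) < (L : ℝ) + 1 := by positivity
  have two : ∀ d, (((B.filter fun v => v d + g d ∉ Finset.Ico (a d) (a d + N d)).card : ℕ) : ℝ)
      * (L + 1) ≤ G * B.card := fun d =>
    (mul_le_mul_of_nonneg_left (hcN d) (Nat.cast_nonneg _)).trans (one d)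
  have three : ((B.filter (fun v => v + g ∉ B)).card : ℝ) * (L + 1) ≤
      Fintype.card ι * (G * B.card) := by
    have h1 : (B.filter (fun v => v + g ∉ B)).card ≤
        ∑ d, (B.filter fun v => v d + g d ∉ Finset.Ico (a d) (a d + N d)).card :=
      (card_le_card sub).trans card_biUnion_le
    have h2 : ((B.filter (fun v => v + g ∉ B)).card : ℝ) ≤
        ∑ d, ((B.filter fun v => v d + g d ∉ Finset.Ico (a d) (a d + N d)).card : ℝ) := by
      exact_mod_cast h1
    refine (mul_le_mul_of_nonneg_right h2 hL0.le).trans ?_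
    rw [sum_mul]
    refine (sum_le_sum fun d _ => two d).trans ?_
    rw [sum_const, nsmul_eq_mul, card_univ]
  have hδ2 : 2 * (Fintype.card ι * (G : ℝ)) ≤ δ * (L + 1) := by
    rw [div_lt_iff₀ hδ] at hL
    nlinarith
  have hBc0 : (0 : ℝ) ≤ B.card := Nat.cast_nonneg _
  have four : 2 * ((B.filter (fun v => v + g ∉ B)).card : ℝ) * (L + 1) ≤ δ * B.card * (L + 1) := by
    nlinarith [mul_le_mul_of_nonneg_right hδ2 hBc0]
  exact le_of_mul_le_mul_right four hL0

end Pool.Agent.H15.E3
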