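import Mathlib

/-!
# Averages over finite sets, expectation spaces, means

Helper file for `MP_3ea55a_an`: an expectation space is a set with an algebra of bounded functions,
a positive normalised linear functional and an action of an abelian group which preserves both.
-/

set_option autoImplicit false

noncomputable section

open Finset Filter Topology

namespace Pool.Agent.H15.E3

/-! ## Averages over a finite set -/

/-- average over a finite set -/
def av {V : Type*} (B : Finset V) (g : V → ℝ) : ℝ := (∑ v ∈ B, g v) / (B.card : ℝ)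

section av
variable {V W : Type*}

theorem av_const {B : Finset V} (hB : B.Nonempty) (c : ℝ) : av B (fun _ => c) = c := by
  have h : (B.card : ℝ) ≠ 0 := by exact_mod_cast hB.card_pos.ne'
  simp only [av, sum_const, nsmul_eq_mul]
  field_simp

theorem av_add (B : Finset V) (f g : V → ℝ) :
    av B (fun v => f v + g v) = av B f + av B g := by
  simp only [av, sum_add_distrib, add_div]

theorem av_sub (B : Finset V) (f g : V → ℝ) :
    av B (fun v => f v - g v) = av B f - av B g := by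
  simp only [av, sum_sub_distrib, sub_div]

theorem av_mul_left (B : Finset V) (c : ℝ) (f : V → ℝ) :
    av B (fun v => c * f v) = c * av B f := by
  simp only [av, ← mul_sum, mul_div_assoc]

theorem av_mul_right (B : Finset V) (c : ℝ) (f : V → ℝ) :
    av B (fun v => f v * c) = av B f * c := by
  simp only [av, ← sum_mul, div_mul_eq_mul_div]

theorem av_le {B : Finset V} {f g : V → ℝ} (h : ∀ v ∈ B, f v ≤ g v) : av B f ≤ av B g :=
  div_le_div_of_nonneg_right (sum_le_sum h) (Nat.cast_nonneg _)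

theorem av_nonneg {B : Finset V} {f : V → ℝ} (h : ∀ v ∈ B, 0 ≤ f v) : 0 ≤ av B f :=
  div_nonneg (sum_nonneg h) (Nat.cast_nonneg _)

theorem av_congr {B : Finset V} {f g : V → ℝ} (h : ∀ v ∈ B, f v = g v) : av B f = av B g := by
  simp only [av]; rw [sum_congr rfl h]

theorem abs_av_le' {B : Finset V} {f : V → ℝ} : |av B f| ≤ av B (fun v => |f v|) := by
  simp only [av, abs_div, Nat.abs_cast]
  exact div_le_div_of_nonneg_right (abs_sum_le_sum_abs _ _) (Nat.cast_nonneg _)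

theorem av_le_const {B : Finset V} {f : V → ℝ} {C : ℝ} (hC : 0 ≤ C) (h : ∀ v ∈ B, f v ≤ C) :
    av B f ≤ C := by
  rcases B.eq_empty_or_nonempty with rfl | hB
  · simpa [av] using hC
  · exact (av_le h).trans_eq (av_const hB C)

theorem abs_av_le {B : Finset V} {f : V → ℝ} {C : ℝ} (hC : 0 ≤ C) (h : ∀ v ∈ B, |f v| ≤ C) :
    |av B f| ≤ C := abs_av_le'.trans (av_le_const hC h)

theorem sq_av_le (B : Finset V) (f : V → ℝ) : (av B f) ^ 2 ≤ av B (fun v => f v ^ 2) := by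
  rcases B.eq_empty_or_nonempty with rfl | hB
  · simp [av]
  have h : (0 : ℝ) < B.card := by exact_mod_cast hB.card_pos
  have h1 := sq_sum_le_card_mul_sum_sq (s := B) (f := f)
  simp only [av, div_pow]
  rw [div_le_div_iff₀ (by positivity) h]
  nlinarith [h1, h]

theorem av_comm (B : Finset V) (B' : Finset W) (f : V → W → ℝ) :
    av B (fun v => av B' (fun w => f v w)) = av B' (fun w => av B (fun v => f v w)) := by
  simp only [av, ← sum_div]
  rw [sum_comm, div_right_comm]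

end av

/-- almost invariance of a finite set under the translations of `K` -/
def Inv {V : Type*} [AddCommGroup V] (K : Finset V) (δ : ℝ) (B : Finset V) : Prop :=
  B.Nonempty ∧ ∀ g ∈ K, ∀ φ : V → ℝ, (∀ v, |φ v| ≤ 1) →
    |av B (fun v => φ (v + g)) - av B φ| ≤ δ

theorem Inv.mono {V : Type*} [AddCommGroup V] {K K' : Finset V} {δ δ' : ℝ} {B : Finset V}
    (h : Inv K δ B) (hK : K' ⊆ K) (hδ : δ ≤ δ') : Inv K' δ' B :=
  ⟨h.1, fun g hg φ hφ => (h.2 g (hK hg) φ hφ).trans hδ⟩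

theorem Inv.shift {V : Type*} [AddCommGroup V] {K : Finset V} {δ : ℝ} {B : Finset V}
    (h : Inv K δ B) {g : V} (hg : g ∈ K) {φ : V → ℝ} {C : ℝ} (hC : 0 < C)
    (hφ : ∀ v, |φ v| ≤ C) : |av B (fun v => φ (v + g)) - av B φ| ≤ δ * C := by
  have h1 := h.2 g hg (fun v => C⁻¹ * φ v) (fun v => by
    rw [abs_mul, abs_of_pos (inv_pos.2 hC), inv_mul_le_iff₀ hC, mul_one]; exact hφ v)
  rw [av_mul_left, av_mul_left, ← mul_sub, abs_mul, abs_of_pos (inv_pos.2 hC),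
    inv_mul_le_iff₀ hC] at h1
  linarith

/-! ## Limits along a fixed nonprincipal ultrafilter -/

/-- the ultrafilter -/
def up : Ultrafilter ℕ := hyperfilter ℕ

theorem up_le : (up : Filter ℕ) ≤ atTop := Nat.hyperfilter_le_atTop

/-- limit along the ultrafilter -/
def ul (a : ℕ → ℝ) : ℝ := limUnder (up : Filter ℕ) a

theorem ul_tendsto {a : ℕ → ℝ} {C : ℝ} (h : ∀ n, |a n| ≤ C) :
    Tendsto a (up : Filter ℕ) (𝓝 (ul a)) := by
  have hc : IsCompact (Set.Icc (-C) C) := isCompact_Icc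
  obtain ⟨x, -, hx⟩ := hc.ultrafilter_le_nhds (up.map a) (by
    rw [le_principal_iff]
    change a ⁻¹' (Set.Icc (-C) C) ∈ (up : Filter ℕ)
    exact univ_mem' fun n => abs_le.1 (h n))
  exact tendsto_nhds_limUnder ⟨x, hx⟩

theorem ul_eq {a : ℕ → ℝ} {x : ℝ} (h : Tendsto a (up : Filter ℕ) (𝓝 x)) : ul a = x :=
  h.limUnder_eq

/-- bounded functions -/
def Bd {J : Type*} (φ : J → ℝ) : Prop := ∃ C : ℝ, ∀ j, |φ j| ≤ C

/-- a mean: positive normalised linear functional on bounded functions -/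
structure Mn (J : Type*) where
  m : (J → ℝ) → ℝ
  add : ∀ φ ψ, Bd φ → Bd ψ → m (fun j => φ j + ψ j) = m φ + m ψ
  smul : ∀ (c : ℝ) φ, Bd φ → m (fun j => c * φ j) = c * m φ
  nonneg : ∀ φ, Bd φ → (∀ j, 0 ≤ φ j) → 0 ≤ m φ
  one : m (fun _ => 1) = 1

theorem ul_add {a b : ℕ → ℝ} (ha : Bd a) (hb : Bd b) :
    ul (fun n => a n + b n) = ul a + ul b := by
  obtain ⟨C, hC⟩ := ha
  obtain ⟨D, hD⟩ := hb
  exact ul_eq ((ul_tendsto hC).add (ul_tendsto hD))

theorem ul_smul (c : ℝ) {a : ℕ → ℝ} (ha : Bd a) : ul (fun n => c * a n) = c * ul a := by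
  obtain ⟨C, hC⟩ := ha
  exact ul_eq ((ul_tendsto hC).const_mul c)

theorem ul_const (c : ℝ) : ul (fun _ => c) = c := ul_eq tendsto_const_nhds

theorem ul_le {a b : ℕ → ℝ} (ha : Bd a) (hb : Bd b) (h : ∀ᶠ n in (up : Filter ℕ), a n ≤ b n) :
    ul a ≤ ul b := by
  obtain ⟨C, hC⟩ := ha
  obtain ⟨D, hD⟩ := hb
  exact le_of_tendsto_of_tendsto (ul_tendsto hC) (ul_tendsto hD) h

/-- the mean of the ultrafilter -/
def ulM : Mn ℕ where
  m := ul
  add _ _ h1 h2 := ul_add h1 h2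
  smul c _ h := ul_smul c h
  nonneg φ h1 h2 := by
    have := ul_le (a := fun _ => 0) ⟨0, by simp⟩ h1 (univ_mem' h2)
    rwa [ul_const] at this
  one := ul_const 1

theorem bd_av {J : Type*} {V : Type*} (B : J → Finset V) {φ : J × V → ℝ} (h : Bd φ) :
    Bd (fun n => av (B n) fun v => φ (n, v)) := by
  obtain ⟨C, hC⟩ := h
  refine ⟨|C|, fun n => abs_av_le (abs_nonneg C) fun v _ => (hC (n, v)).trans (le_abs_self C)⟩

/-- the mean of the averages over a sequence of finite sets -/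
def ulavM {V : Type*} (B : ℕ → Finset V) (hB : ∀ n, (B n).Nonempty) : Mn (ℕ × V) where
  m φ := ul (fun n => av (B n) fun v => φ (n, v))
  add φ ψ h1 h2 := by
    simp only [av_add]
    exact ul_add (bd_av B h1) (bd_av B h2)
  smul c φ h := by
    simp only [av_mul_left]
    exact ul_smul c (bd_av B h)
  nonneg φ h1 h2 := by
    have := ul_le (a := fun _ => 0) ⟨0, by simp⟩ (bd_av B h1)
      (univ_mem' fun n => av_nonneg fun v _ => h2 (n, v))
    rwa [ul_const] at this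
  one := by
    simp only [av_const (hB _), ul_const]

/-! ## Expectation spaces -/

/-- a set with an algebra of bounded functions, a positive functional and an action -/
structure ES (Γ : Type*) [AddCommGroup Γ] (Ω : Type*) where
  A : Set (Ω → ℝ)
  cmem : ∀ c : ℝ, (fun _ => c) ∈ A
  amem : ∀ f ∈ A, ∀ g ∈ A, (fun x => f x + g x) ∈ A
  mmem : ∀ f ∈ A, ∀ g ∈ A, (fun x => f x * g x) ∈ A
  bdd : ∀ f ∈ A, ∃ C : ℝ, ∀ x, |f x| ≤ C
  E : (Ω → ℝ) → ℝ
  add : ∀ f ∈ A, ∀ g ∈ A, E (fun x => f x + g x) = E f + E g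
  smul : ∀ c : ℝ, ∀ f ∈ A, E (fun x => c * f x) = c * E f
  nonneg : ∀ f ∈ A, (∀ x, 0 ≤ f x) → 0 ≤ E f
  one : E (fun _ => 1) = 1
  S : Γ → Ω → Ω
  S_add : ∀ a b x, S (a + b) x = S a (S b x)
  S_zero : ∀ x, S 0 x = x
  S_mem : ∀ a, ∀ f ∈ A, (fun x => f (S a x)) ∈ A
  S_inv : ∀ a, ∀ f ∈ A, E (fun x => f (S a x)) = E f

namespace ES
variable {Γ : Type*} [AddCommGroup Γ] {Ω : Type*} (𝔈 : ES Γ Ω)

theorem kmem (c : ℝ) {f : Ω → ℝ} (hf : f ∈ 𝔈.A) : (fun x => c * f x) ∈ 𝔈.A :=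
  𝔈.mmem _ (𝔈.cmem c) _ hf

theorem smem {f g : Ω → ℝ} (hf : f ∈ 𝔈.A) (hg : g ∈ 𝔈.A) : (fun x => f x - g x) ∈ 𝔈.A := by
  have := 𝔈.amem _ hf _ (𝔈.kmem (-1) hg)
  simpa [sub_eq_add_neg] using this

theorem sqmem {f : Ω → ℝ} (hf : f ∈ 𝔈.A) : (fun x => f x ^ 2) ∈ 𝔈.A := by
  simpa only [pow_two] using 𝔈.mmem _ hf _ hf

theorem sum_mem {ι : Type*} (s : Finset ι) (f : ι → Ω → ℝ) (h : ∀ i ∈ s, f i ∈ 𝔈.A) :
    (fun x => ∑ i ∈ s, f i x) ∈ 𝔈.A := by
  classical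
  induction s using Finset.induction_on with
  | empty => simpa using 𝔈.cmem 0
  | insert a s ha ih =>
    have h1 := 𝔈.amem _ (h a (mem_insert_self a s)) _
      (ih fun i hi => h i (mem_insert_of_mem hi))
    simpa only [sum_insert ha] using h1

theorem prod_mem {ι : Type*} (s : Finset ι) (f : ι → Ω → ℝ) (h : ∀ i ∈ s, f i ∈ 𝔈.A) :
    (fun x => ∏ i ∈ s, f i x) ∈ 𝔈.A := by
  classical
  induction s using Finset.induction_on with
  | empty => simpa using 𝔈.cmem 1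
  | insert a s ha ih =>
    have h1 := 𝔈.mmem _ (h a (mem_insert_self a s)) _
      (ih fun i hi => h i (mem_insert_of_mem hi))
    simpa only [prod_insert ha] using h1

theorem av_mem {V : Type*} (B : Finset V) (f : V → Ω → ℝ) (h : ∀ v ∈ B, f v ∈ 𝔈.A) :
    (fun x => av B fun v => f v x) ∈ 𝔈.A := by
  have := 𝔈.kmem ((B.card : ℝ)⁻¹) (𝔈.sum_mem B f h)
  simpa only [av, div_eq_inv_mul] using this

theorem E_sub {f g : Ω → ℝ} (hf : f ∈ 𝔈.A) (hg : g ∈ 𝔈.A) :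
    𝔈.E (fun x => f x - g x) = 𝔈.E f - 𝔈.E g := by
  have h1 := 𝔈.add _ hf _ (𝔈.kmem (-1) hg)
  rw [𝔈.smul _ _ hg] at h1
  simpa [sub_eq_add_neg] using h1

theorem E_const (c : ℝ) : 𝔈.E (fun _ => c) = c := by
  have := 𝔈.smul c _ (𝔈.cmem 1)
  simpa [𝔈.one] using this

theorem E_mono {f g : Ω → ℝ} (hf : f ∈ 𝔈.A) (hg : g ∈ 𝔈.A) (h : ∀ x, f x ≤ g x) :
    𝔈.E f ≤ 𝔈.E g := by
  have h1 := 𝔈.nonneg _ (𝔈.smem hg hf) fun x => sub_nonneg.2 (h x)
  rw [𝔈.E_sub hg hf] at h1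
  linarith

theorem abs_E_le {f : Ω → ℝ} (hf : f ∈ 𝔈.A) {C : ℝ} (h : ∀ x, |f x| ≤ C) : |𝔈.E f| ≤ C := by
  rw [abs_le]
  constructor
  · have := 𝔈.E_mono (𝔈.cmem (-C)) hf fun x => (abs_le.1 (h x)).1
    rwa [𝔈.E_const] at this
  · have := 𝔈.E_mono hf (𝔈.cmem C) fun x => (abs_le.1 (h x)).2
    rwa [𝔈.E_const] at this

theorem E_sum {ι : Type*} (s : Finset ι) (f : ι → Ω → ℝ) (h : ∀ i ∈ s, f i ∈ 𝔈.A) :
    𝔈.E (fun x => ∑ i ∈ s, f i x) = ∑ i ∈ s, 𝔈.E (f i) := by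
  classical
  induction s using Finset.induction_on with
  | empty => simpa using 𝔈.E_const 0
  | insert a s ha ih =>
    have h1 := 𝔈.add _ (h a (mem_insert_self a s)) _
      (𝔈.sum_mem s f fun i hi => h i (mem_insert_of_mem hi))
    rw [ih fun i hi => h i (mem_insert_of_mem hi)] at h1
    simpa only [sum_insert ha] using h1

theorem E_av {V : Type*} (B : Finset V) (f : V → Ω → ℝ) (h : ∀ v ∈ B, f v ∈ 𝔈.A) :
    𝔈.E (fun x => av B fun v => f v x) = av B fun v => 𝔈.E (f v) := by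
  have h1 := 𝔈.smul ((B.card : ℝ)⁻¹) _ (𝔈.sum_mem B f h)
  rw [𝔈.E_sum B f h] at h1
  simpa only [av, div_eq_inv_mul] using h1

/-- extension by a space with a mean -/
def ext {J : Type*} (M : Mn J) : ES Γ (Ω × J) where
  A := {F | (∀ j, (fun x => F (x, j)) ∈ 𝔈.A) ∧ ∃ C : ℝ, ∀ y, |F y| ≤ C}
  cmem c := ⟨fun _ => 𝔈.cmem c, |c|, fun _ => le_rfl⟩
  amem f hf g hg := by
    refine ⟨fun j => 𝔈.amem _ (hf.1 j) _ (hg.1 j), ?_⟩
    obtain ⟨C, hC⟩ := hf.2
    obtain ⟨D, hD⟩ := hg.2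
    exact ⟨C + D, fun y => (abs_add_le _ _).trans (add_le_add (hC y) (hD y))⟩
  mmem f hf g hg := by
    refine ⟨fun j => 𝔈.mmem _ (hf.1 j) _ (hg.1 j), ?_⟩
    obtain ⟨C, hC⟩ := hf.2
    obtain ⟨D, hD⟩ := hg.2
    exact ⟨C * D, fun y => by
      rw [abs_mul]
      exact mul_le_mul (hC y) (hD y) (abs_nonneg _) ((abs_nonneg _).trans (hC y))⟩
  bdd f hf := hf.2
  E F := M.m fun j => 𝔈.E fun x => F (x, j)
  add f hf g hg := by
    rw [← M.add]
    · congr 1
      funext j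
      exact 𝔈.add _ (hf.1 j) _ (hg.1 j)
    · obtain ⟨C, hC⟩ := hf.2
      exact ⟨C, fun j => 𝔈.abs_E_le (hf.1 j) fun x => hC _⟩
    · obtain ⟨C, hC⟩ := hg.2
      exact ⟨C, fun j => 𝔈.abs_E_le (hg.1 j) fun x => hC _⟩
  smul c f hf := by
    rw [← M.smul]
    · congr 1
      funext j
      exact 𝔈.smul _ _ (hf.1 j)
    · obtain ⟨C, hC⟩ := hf.2
      exact ⟨C, fun j => 𝔈.abs_E_le (hf.1 j) fun x => hC _⟩
  nonneg f hf h := by
    refine M.nonneg _ ?_ fun j => 𝔈.nonneg _ (hf.1 j) fun x => h _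
    obtain ⟨C, hC⟩ := hf.2
    exact ⟨C, fun j => 𝔈.abs_E_le (hf.1 j) fun x => hC _⟩
  one := by
    simp only [𝔈.one, M.one]
  S a y := (𝔈.S a y.1, y.2)
  S_add a b y := by simp only [𝔈.S_add]
  S_zero y := by simp only [𝔈.S_zero]
  S_mem a f hf := by
    refine ⟨fun j => 𝔈.S_mem a _ (hf.1 j), ?_⟩
    obtain ⟨C, hC⟩ := hf.2
    exact ⟨C, fun y => hC _⟩
  S_inv a f hf := by
    congr 1
    funext j
    exact 𝔈.S_inv a _ (hf.1 j)

end ES

end Pool.Agent.H15.E3
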