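import Pool.Agent.H15.E3.Lin
import Pool.Agent.H63.NS.Av

/-!
# The linear theorem for a measure preserving real flow
-/

set_option autoImplicit false

noncomputable section

open MeasureTheory Finset Filter Topology
open Pool.Agent.H63.NS (BM I Flow babs bmeas bbdd bint)

namespace Pool.Agent.H15.E3

variable {Y : Type} [MeasurableSpace Y] {ν : Measure Y} [IsProbabilityMeasure ν]

/-- the expectation space of a flow -/
def flowES (F : Flow ν) : ES ℝ Y where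
  A := {f | Measurable f ∧ ∃ C : ℝ, ∀ y, |f y| ≤ C}
  cmem c := (algebraMap ℝ (BM Y) c).2
  amem f hf g hg := (BM Y).add_mem (x := f) (y := g) hf hg
  mmem f hf g hg := (BM Y).mul_mem (x := f) (y := g) hf hg
  bdd f hf := hf.2
  E f := ∫ y, f y ∂ν
  add f hf g hg := (I ν).map_add (⟨f, hf⟩ : BM Y) ⟨g, hg⟩
  smul c f hf := (I ν).map_smul c (⟨f, hf⟩ : BM Y)
  nonneg f hf h := integral_nonneg h
  one := by simp
  S := F.S
  S_add := F.add
  S_zero := F.zero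
  S_mem a f hf := (F.T a (⟨f, hf⟩ : BM Y)).2
  S_inv a f hf := F.I_T a (⟨f, hf⟩ : BM Y)

theorem av_eq {V : Type*} (B : Finset V) (g : V → ℝ) : H63.NS.av B g = av B g := by
  rw [H63.NS.av, av, smul_eq_mul, div_eq_inv_mul]

theorem av_ap {V : Type*} (B : Finset V) (g : V → BM Y) (y : Y) :
    ((H63.NS.av B g : BM Y) : Y → ℝ) y = av B fun v => (g v : Y → ℝ) y := by
  rw [H63.NS.av, H63.NS.BM.smul_ap, H63.NS.BM.sum_ap, av, div_eq_inv_mul]

variable {V : Type} [AddCommGroup V] [Countable V]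

/-- **M1**: L2 form -/
theorem lin_flow (F : Flow ν) (r : ℕ) (e : Fin r → (V →+ ℝ)) (f : Fin r → BM Y) :
    ∀ ε : ℝ, 0 < ε → ∃ (K : Finset V) (δ : ℝ), 0 < δ ∧ ∀ B B' : Finset V,
      Inv K δ B → Inv K δ B' →
      I ν ((H63.NS.av B (fun v => ∏ j, F.T (e j v) (f j)) -
        H63.NS.av B' (fun v => ∏ j, F.T (e j v) (f j))) ^ 2) ≤ ε := by
  intro ε hε
  obtain ⟨K, δ, hδ, h⟩ := pLin ℝ V r Y (flowES F) e (fun j => (f j : Y → ℝ))
    (fun j => (f j).2) ε hε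
  refine ⟨K, δ, hδ, fun B B' hB hB' => ?_⟩
  have := h B B' hB hB'
  have e1 : (fun y => (((H63.NS.av B (fun v => ∏ j, F.T (e j v) (f j)) -
        H63.NS.av B' (fun v => ∏ j, F.T (e j v) (f j))) ^ 2 : BM Y) : Y → ℝ) y)
      = fun y => (av B (fun v => ∏ j, (f j : Y → ℝ) ((flowES F).S (e j v) y))
        - av B' (fun v => ∏ j, (f j : Y → ℝ) ((flowES F).S (e j v) y))) ^ 2 := by
    funext y
    rw [H63.NS.BM.pow_ap, H63.NS.BM.sub_ap, av_ap, av_ap]
    simp only [H63.NS.BM.prod_ap, H63.NS.Flow.T_ap]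
    rfl
  rw [H63.NS.I_def]
  rw [e1]
  exact this

/-- **M1**: L1 form -/
theorem lin_flow_abs (F : Flow ν) (r : ℕ) (e : Fin r → (V →+ ℝ)) (f : Fin r → BM Y) :
    ∀ ε : ℝ, 0 < ε → ∃ (K : Finset V) (δ : ℝ), 0 < δ ∧ ∀ B B' : Finset V,
      Inv K δ B → Inv K δ B' →
      I ν (babs (H63.NS.av B (fun v => ∏ j, F.T (e j v) (f j)) -
        H63.NS.av B' (fun v => ∏ j, F.T (e j v) (f j)))) ≤ ε := by
  intro ε hε
  obtain ⟨K, δ, hδ, h⟩ := lin_flow F r e f (ε ^ 2) (by positivity)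
  refine ⟨K, δ, hδ, fun B B' hB hB' => ?_⟩
  have h1 := h B B' hB hB'
  set G := H63.NS.av B (fun v => ∏ j, F.T (e j v) (f j)) -
        H63.NS.av B' (fun v => ∏ j, F.T (e j v) (f j))
  have h2 := H63.NS.I_sq_le ν (babs G)
  have h3 : (babs G) ^ 2 = G ^ 2 := by
    apply Subtype.ext
    funext y
    simp only [H63.NS.BM.pow_ap, H63.NS.babs_ap, sq_abs]
  rw [h3] at h2
  exact abs_le_of_sq_le_sq' (h2.trans h1) hε.le |>.2

/-- **M1**: form with integrals -/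
theorem lin_flow_I (F : Flow ν) (r : ℕ) (e : Fin r → (V →+ ℝ)) (f : Fin r → BM Y) :
    ∀ ε : ℝ, 0 < ε → ∃ (K : Finset V) (δ : ℝ), 0 < δ ∧ ∀ B B' : Finset V,
      Inv K δ B → Inv K δ B' →
      |H63.NS.av B (fun v => I ν (∏ j, F.T (e j v) (f j))) -
        H63.NS.av B' (fun v => I ν (∏ j, F.T (e j v) (f j)))| ≤ ε := by
  intro ε hε
  obtain ⟨K, δ, hδ, h⟩ := lin_flow_abs F r e f ε hε
  refine ⟨K, δ, hδ, fun B B' hB hB' => ?_⟩
  rw [← H63.NS.map_av, ← H63.NS.map_av, ← map_sub]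
  exact (H63.NS.abs_I_le ν _).trans (h B B' hB hB')

end Pool.Agent.H15.E3
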