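import Pool.Agent.H15.E3.ES

/-!
# Averages of products of linear actions converge in expectation spaces
-/

set_option autoImplicit false

noncomputable section

open Finset Filter Topology

namespace Pool.Agent.H15.E3

/-! ## Diagonal sequences -/

theorem diag (Q : ℕ → ℕ → Prop) (h : ∀ N, ∀ᶠ n in (up : Filter ℕ), Q N n) :
    ∃ N : ℕ → ℕ, (∀ᶠ n in (up : Filter ℕ), Q (N n) n) ∧
      ∀ N0, ∀ᶠ n in (up : Filter ℕ), N0 ≤ N n := by
  classical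
  have h1 : ∀ N, ∀ᶠ n in (up : Filter ℕ), ∀ i ≤ N, Q i n := by
    intro N
    have := (Finset.range (N + 1)).eventually_all (l := (up : Filter ℕ))
      (p := fun i n => Q i n)
    have h2 := this.2 fun i _ => h i
    filter_upwards [h2] with n hn i hi
    exact hn i (by simp; omega)
  have h3 : ∀ N0, ∀ᶠ n in (up : Filter ℕ),
      N0 ≤ Nat.findGreatest (fun N => ∀ i ≤ N, Q i n) n := by
    intro N0
    have h4 : ∀ᶠ n in (up : Filter ℕ), N0 ≤ n := up_le (eventually_ge_atTop N0)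
    filter_upwards [h1 N0, h4] with n hn hn'
    exact Nat.le_findGreatest hn' hn
  refine ⟨fun n => Nat.findGreatest (fun N => ∀ i ≤ N, Q i n) n, ?_, h3⟩
  filter_upwards [h1 0] with n hn
  exact Nat.findGreatest_spec (P := fun N => ∀ i ≤ N, Q i n) (Nat.zero_le n) hn _ le_rfl

/-- exhaustion of a countable group and Følner type diagonal -/
theorem exists_exh (V : Type*) [AddCommGroup V] [Countable V] :
    ∃ K : ℕ → Finset V, ∀ K0 : Finset V, ∃ N0, ∀ N ≥ N0, K0 ⊆ K N := by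
  classical
  obtain ⟨e, he⟩ := exists_surjective_nat V
  refine ⟨fun N => (Finset.range (N + 1)).image e, fun K0 => ?_⟩
  choose r hr using he
  refine ⟨K0.sup r, fun N hN v hv => ?_⟩
  rw [mem_image]
  refine ⟨r v, ?_, hr v⟩
  have := Finset.le_sup (f := r) hv
  simp; omega

/-! ## Cauchy property -/

variable {Γ : Type*} [AddCommGroup Γ] {Ω : Type*}
variable {V : Type} [AddCommGroup V]

/-- the averages of `φ` over almost invariant sets are Cauchy -/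
def Cau (𝔈 : ES Γ Ω) (φ : V → Ω → ℝ) : Prop :=
  ∀ ε : ℝ, 0 < ε → ∃ (K : Finset V) (δ : ℝ), 0 < δ ∧ ∀ B B' : Finset V, Inv K δ B → Inv K δ B' →
    𝔈.E (fun x => (av B (fun v => φ v x) - av B' (fun v => φ v x)) ^ 2) ≤ ε

theorem Cau.add {𝔈 : ES Γ Ω} {φ ψ : V → Ω → ℝ} (h1 : Cau 𝔈 φ) (h2 : Cau 𝔈 ψ)
    (m1 : ∀ v, φ v ∈ 𝔈.A) (m2 : ∀ v, ψ v ∈ 𝔈.A) : Cau 𝔈 (fun v x => φ v x + ψ v x) := by
  classical
  intro ε hε
  obtain ⟨K, δ, hδ, hK⟩ := h1 (ε / 4) (by linarith)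
  obtain ⟨K', δ', hδ', hK'⟩ := h2 (ε / 4) (by linarith)
  refine ⟨K ∪ K', min δ δ', lt_min hδ hδ', fun B B' hB hB' => ?_⟩
  have e1 := hK B B' (hB.mono subset_union_left (min_le_left _ _))
    (hB'.mono subset_union_left (min_le_left _ _))
  have e2 := hK' B B' (hB.mono subset_union_right (min_le_right _ _))
    (hB'.mono subset_union_right (min_le_right _ _))
  have a1 : ∀ C : Finset V, (fun x => av C fun v => φ v x) ∈ 𝔈.A := fun C =>
    𝔈.av_mem C φ fun v _ => m1 v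
  have a2 : ∀ C : Finset V, (fun x => av C fun v => ψ v x) ∈ 𝔈.A := fun C =>
    𝔈.av_mem C ψ fun v _ => m2 v
  have b1 := 𝔈.sqmem (𝔈.smem (a1 B) (a1 B'))
  have b2 := 𝔈.sqmem (𝔈.smem (a2 B) (a2 B'))
  have c1 := 𝔈.kmem 2 b1
  have c2 := 𝔈.kmem 2 b2
  have := 𝔈.E_mono (f := fun x => (av B (fun v => φ v x + ψ v x)
      - av B' (fun v => φ v x + ψ v x)) ^ 2)
    (by
      simp only [av_add]
      exact 𝔈.sqmem (𝔈.smem (𝔈.amem _ (a1 B) _ (a2 B)) (𝔈.amem _ (a1 B') _ (a2 B'))))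
    (𝔈.amem _ c1 _ c2) (fun x => by
      simp only [av_add]
      nlinarith [sq_nonneg ((av B (fun v => φ v x) - av B' (fun v => φ v x))
        - (av B (fun v => ψ v x) - av B' (fun v => ψ v x)))])
  rw [𝔈.add _ c1 _ c2, 𝔈.smul _ _ b1, 𝔈.smul _ _ b2] at this
  linarith

theorem Cau.smul {𝔈 : ES Γ Ω} {φ : V → Ω → ℝ} (h1 : Cau 𝔈 φ)
    (m1 : ∀ v, φ v ∈ 𝔈.A) (c : ℝ) : Cau 𝔈 (fun v x => c * φ v x) := by
  intro ε hε
  obtain ⟨K, δ, hδ, hK⟩ := h1 (ε / (c ^ 2 + 1)) (by positivity)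
  refine ⟨K, δ, hδ, fun B B' hB hB' => ?_⟩
  have e1 := hK B B' hB hB'
  have a1 : ∀ C : Finset V, (fun x => av C fun v => φ v x) ∈ 𝔈.A := fun C =>
    𝔈.av_mem C φ fun v _ => m1 v
  have b1 := 𝔈.sqmem (𝔈.smem (a1 B) (a1 B'))
  simp only [av_mul_left]
  have h3 : (fun x => (c * av B (fun v => φ v x) - c * av B' (fun v => φ v x)) ^ 2)
      = fun x => c ^ 2 * (av B (fun v => φ v x) - av B' (fun v => φ v x)) ^ 2 := by
    funext x; ring
  rw [h3, 𝔈.smul _ _ b1]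
  have h4 : c ^ 2 * (ε / (c ^ 2 + 1)) ≤ ε := by
    rw [← mul_div_assoc, div_le_iff₀ (by positivity)]
    nlinarith
  calc c ^ 2 * 𝔈.E (fun x => (av B (fun v => φ v x) - av B' (fun v => φ v x)) ^ 2)
      ≤ c ^ 2 * (ε / (c ^ 2 + 1)) := mul_le_mul_of_nonneg_left e1 (sq_nonneg c)
    _ ≤ ε := h4

/-! ## The induction -/

/-- the statement for `k` functions -/
def PLin (Γ : Type*) [AddCommGroup Γ] (V : Type) [AddCommGroup V] (k : ℕ) : Prop :=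
  ∀ (Ω : Type) (𝔈 : ES Γ Ω) (L : Fin k → V →+ Γ) (f : Fin k → Ω → ℝ),
    (∀ j, f j ∈ 𝔈.A) → Cau 𝔈 (fun (v : V) x => ∏ j, f j (𝔈.S (L j v) x))

theorem pLin_zero : PLin Γ V 0 := by
  intro Ω 𝔈 L f hf ε hε
  refine ⟨∅, 1, one_pos, fun B B' hB hB' => ?_⟩
  simp only [univ_eq_empty, prod_empty, av_const hB.1, av_const hB'.1]
  simp only [sub_self, ne_eq, OfNat.ofNat_ne_zero, not_false_eq_true, zero_pow]
  rw [𝔈.E_const]
  exact hε.le

section step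

variable {k : ℕ} {Ω : Type} (𝔈 : ES Γ Ω) (L : Fin (k + 1) → V →+ Γ) (f : Fin k → Ω → ℝ)

/-- the space of sequences -/
abbrev E1 : ES Γ (Ω × ℕ) := 𝔈.ext ulM

/-- product of the last functions at `v` -/
def tl (v : V) (x : Ω) : ℝ := ∏ j, f j (𝔈.S (L j.succ v) x)

/-- the family with the first function `h` -/
def fam (h : Ω × ℕ → ℝ) (v : V) (y : Ω × ℕ) : ℝ :=
  h (𝔈.S (L 0 v) y.1, y.2) * tl 𝔈 L f v y.1

/-- the reducible function -/
def sg (B : ℕ → Finset V) (c : Ω × ℕ → ℝ) (y : Ω × ℕ) : ℝ :=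
  av (B y.2) fun m => c (𝔈.S (-(L 0 m)) y.1, y.2) *
    ∏ j, f j (𝔈.S (L j.succ m - L 0 m) y.1)

variable {𝔈 L f}

theorem tl_mem (hf : ∀ j, f j ∈ 𝔈.A) (v : V) : tl 𝔈 L f v ∈ 𝔈.A :=
  𝔈.prod_mem univ (fun j x => f j (𝔈.S (L j.succ v) x)) fun j _ => 𝔈.S_mem _ _ (hf j)

theorem bdd_all (hf : ∀ j, f j ∈ 𝔈.A) : ∃ C : ℝ, 1 ≤ C ∧ ∀ a : Fin k → Γ, ∀ x : Fin k → Ω,
    |∏ j, f j (𝔈.S (a j) (x j))| ≤ C := by
  choose C hC using fun j => 𝔈.bdd _ (hf j)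
  refine ⟨∏ j, (|C j| + 1), ?_, fun a x => ?_⟩
  · calc (1 : ℝ) = ∏ _j : Fin k, (1 : ℝ) := by simp
      _ ≤ ∏ j, (|C j| + 1) := prod_le_prod (fun _ _ => zero_le_one) fun j _ => by
        linarith [abs_nonneg (C j)]
  · rw [abs_prod]
    exact prod_le_prod (fun j _ => abs_nonneg _) fun j _ => by
      linarith [hC j (𝔈.S (a j) (x j)), le_abs_self (C j)]

theorem tl_mem1 (hf : ∀ j, f j ∈ 𝔈.A) (v : V) :
    (fun y : Ω × ℕ => tl 𝔈 L f v y.1) ∈ (E1 𝔈).A := by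
  refine ⟨fun _ => tl_mem hf v, ?_⟩
  obtain ⟨C, hC⟩ := 𝔈.bdd _ (tl_mem (L := L) hf v)
  exact ⟨C, fun y => hC y.1⟩

theorem fam_mem (hf : ∀ j, f j ∈ 𝔈.A) {h : Ω × ℕ → ℝ} (hh : h ∈ (E1 𝔈).A) (v : V) :
    fam 𝔈 L f h v ∈ (E1 𝔈).A :=
  (E1 𝔈).mmem _ ((E1 𝔈).S_mem (L 0 v) _ hh) _ (tl_mem1 hf v)

theorem sg_mem (hf : ∀ j, f j ∈ 𝔈.A) (B : ℕ → Finset V) {c : Ω × ℕ → ℝ}
    (hc : c ∈ (E1 𝔈).A) : sg 𝔈 L f B c ∈ (E1 𝔈).A := by
  constructor
  · intro n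
    refine 𝔈.av_mem (B n) (fun m x => c (𝔈.S (-(L 0 m)) x, n) *
      ∏ j, f j (𝔈.S (L j.succ m - L 0 m) x)) fun m _ => ?_
    exact 𝔈.mmem _ (𝔈.S_mem _ _ (hc.1 n)) _
      (𝔈.prod_mem univ (fun j x => f j (𝔈.S (L j.succ m - L 0 m) x))
        fun j _ => 𝔈.S_mem _ _ (hf j))
  · obtain ⟨D, hD⟩ := hc.2
    obtain ⟨C, hC1, hC⟩ := bdd_all hf
    have hD0 : 0 ≤ |D| := abs_nonneg D
    refine ⟨|D| * C, fun y => abs_av_le (by positivity) fun m _ => ?_⟩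
    rw [abs_mul]
    exact mul_le_mul ((hD _).trans (le_abs_self D)) (hC _ fun _ => y.1) (abs_nonneg _) hD0

/-- **reducible functions are good** -/
theorem sg_cau (hP : PLin Γ V k) (hf : ∀ j, f j ∈ 𝔈.A) (B : ℕ → Finset V)
    (hB : ∀ n, (B n).Nonempty)
    (hB' : ∀ (K : Finset V) (δ : ℝ), 0 < δ → ∀ᶠ n in (up : Filter ℕ), Inv K δ (B n))
    {c : Ω × ℕ → ℝ} (hc : c ∈ (E1 𝔈).A) : Cau (E1 𝔈) (fam 𝔈 L f (sg 𝔈 L f B c)) := by
  classical
  intro ε hε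
  obtain ⟨D, hD⟩ := hc.2
  obtain ⟨C, hC1, hC⟩ := bdd_all hf
  have hD0 : 0 ≤ |D| := abs_nonneg D
  have hDc : ∀ y, |c y| ≤ |D| := fun y => (hD y).trans (le_abs_self D)
  set M := ulavM B hB with hM
  set E2 : ES Γ (Ω × (ℕ × V)) := 𝔈.ext M with hE2
  set F : Fin k → Ω × (ℕ × V) → ℝ := fun j y =>
    f j y.1 * f j (𝔈.S (L j.succ y.2.2 - L 0 y.2.2) y.1) with hF
  have hFm : ∀ j, F j ∈ E2.A := by
    intro j
    refine ⟨fun nm => 𝔈.mmem _ (hf j) _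
      (𝔈.S_mem (L j.succ nm.2 - L 0 nm.2) _ (hf j)), ?_⟩
    obtain ⟨C, hC⟩ := 𝔈.bdd _ (hf j)
    refine ⟨C * C, fun y => ?_⟩
    rw [hF, abs_mul]
    exact mul_le_mul (hC _) (hC _) (abs_nonneg _) ((abs_nonneg _).trans (hC y.1))
  obtain ⟨K, δ, hδ, hK⟩ := hP _ E2 (fun j => L j.succ) F hFm (ε / (4 * (|D| ^ 2 + 1)))
    (by positivity)
  refine ⟨K, δ, hδ, fun B1 B2 h1 h2 => ?_⟩
  have hKK := hK B1 B2 h1 h2
  -- abbreviations
  set Φ : Finset V → Ω × (ℕ × V) → ℝ := fun R y =>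
    av R fun v => ∏ j, F j (E2.S (L j.succ v) y) with hΦ
  have hΦm : ∀ R, Φ R ∈ E2.A := fun R =>
    E2.av_mem R (fun v y => ∏ j, F j (E2.S (L j.succ v) y)) fun v _ =>
      E2.prod_mem univ (fun j y => F j (E2.S (L j.succ v) y)) fun j _ => E2.S_mem _ _ (hFm j)
  set T : Finset V → Ω × ℕ → ℝ := fun R y =>
    av R fun v => fam 𝔈 L f (sg 𝔈 L f B c) v y with hT
  have hTm : ∀ R, T R ∈ (E1 𝔈).A := fun R =>
    (E1 𝔈).av_mem R _ fun v _ => fam_mem hf (sg_mem hf B hc) v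
  -- the error
  obtain ⟨η, hη, hηb⟩ : ∃ η : ℝ, 0 < η ∧ 2 * (2 * (η * (|D| * C + 1) * C)) ^ 2 ≤ ε / 2 := by
    set a := 2 * ((|D| * C + 1) * C) with ha
    have ha0 : 0 < a := by positivity
    refine ⟨min 1 (ε / (4 * (a ^ 2 + 1))), lt_min one_pos (by positivity), ?_⟩
    set η := min 1 (ε / (4 * (a ^ 2 + 1))) with hη
    have h3 : η ≤ 1 := min_le_left _ _
    have h4 : η ≤ ε / (4 * (a ^ 2 + 1)) := min_le_right _ _
    have h5 : 0 < η := lt_min one_pos (by positivity)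
    have h6 : 2 * (η * (|D| * C + 1) * C) = η * a := by rw [ha]; ring
    rw [h6, mul_pow]
    have h7 : η ^ 2 ≤ η := by nlinarith
    have h8 : η * (4 * (a ^ 2 + 1)) ≤ ε := by
      rwa [← le_div_iff₀ (by positivity)]
    nlinarith [sq_nonneg a]
  -- main comparison for one `n`
  have key : ∀ n, Inv ((B1 ∪ B2).image Neg.neg) η (B n) → ∀ x,
      (T B1 (x, n) - T B2 (x, n)) ^ 2 ≤
        2 * |D| ^ 2 * av (B n) (fun m => (Φ B1 (x, (n, m)) - Φ B2 (x, (n, m))) ^ 2) + ε / 2 := by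
    intro n hn x
    have one : ∀ v ∈ B1 ∪ B2, |fam 𝔈 L f (sg 𝔈 L f B c) v (x, n)
        - av (B n) (fun m => c (𝔈.S (-(L 0 m)) x, n) *
            ∏ j, F j (E2.S (L j.succ v) (x, (n, m))))| ≤ η * (|D| * C + 1) * C := by
      intro v hv
      set ξ : V → ℝ := fun m => c (𝔈.S (-(L 0 m)) x, n) *
        ∏ j, f j (𝔈.S (L j.succ v + (L j.succ m - L 0 m)) x) with hξ
      have hξb : ∀ m, |ξ m| ≤ |D| * C + 1 := fun m => by
        rw [hξ, abs_mul]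
        have := mul_le_mul (hDc (𝔈.S (-(L 0 m)) x, n))
          (hC (fun j => L j.succ v + (L j.succ m - L 0 m)) fun _ => x) (abs_nonneg _) hD0
        linarith
      have e1 : sg 𝔈 L f B c (𝔈.S (L 0 v) x, n) = av (B n) fun m => ξ (m + (-v)) := by
        rw [sg]
        refine av_congr fun m _ => ?_
        simp only [hξ, ← 𝔈.S_add, map_add, map_neg]
        congr 1
        · congr 2
          abel_nf
        · refine prod_congr rfl fun j _ => ?_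
          congr 2
          abel
      have e2 := hn.shift (mem_image_of_mem Neg.neg hv) (φ := ξ) (C := |D| * C + 1)
        (by positivity) hξb
      have e3 : av (B n) (fun m => c (𝔈.S (-(L 0 m)) x, n) *
            ∏ j, F j (E2.S (L j.succ v) (x, (n, m)))) = av (B n) ξ * tl 𝔈 L f v x := by
        rw [← av_mul_right]
        refine av_congr fun m _ => ?_
        simp only [hξ, hF, prod_mul_distrib, tl, hE2, ES.ext]
        have : ∀ j : Fin k, 𝔈.S (L j.succ m - L 0 m) (𝔈.S (L j.succ v) x)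
            = 𝔈.S (L j.succ v + (L j.succ m - L 0 m)) x := fun j => by
          rw [← 𝔈.S_add]; congr 1; abel
        simp only [this]
        ring
      have e4 : |tl 𝔈 L f v x| ≤ C := hC (fun j => L j.succ v) fun _ => x
      rw [e3, fam, e1, ← sub_mul, abs_mul]
      exact mul_le_mul e2 e4 (abs_nonneg _) (by positivity)
    have two : ∀ R : Finset V, R ⊆ B1 ∪ B2 → |T R (x, n)
        - av (B n) (fun m => c (𝔈.S (-(L 0 m)) x, n) * Φ R (x, (n, m)))|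
          ≤ η * (|D| * C + 1) * C := by
      intro R hR
      have e5 : av (B n) (fun m => c (𝔈.S (-(L 0 m)) x, n) * Φ R (x, (n, m)))
          = av R fun v => av (B n) (fun m => c (𝔈.S (-(L 0 m)) x, n) *
            ∏ j, F j (E2.S (L j.succ v) (x, (n, m)))) := by
        rw [av_comm]
        refine av_congr fun m _ => ?_
        rw [av_mul_left]
      rw [e5, hT, ← av_sub]
      exact abs_av_le (by positivity) fun v hv => one v (hR hv)
    have t1 := two B1 subset_union_left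
    have t2 := two B2 subset_union_right
    have t3 : |av (B n) (fun m => c (𝔈.S (-(L 0 m)) x, n) *
        (Φ B1 (x, (n, m)) - Φ B2 (x, (n, m))))| ^ 2 ≤
        |D| ^ 2 * av (B n) (fun m => (Φ B1 (x, (n, m)) - Φ B2 (x, (n, m))) ^ 2) := by
      rw [sq_abs, ← av_mul_left]
      refine (sq_av_le _ _).trans (av_le fun m _ => ?_)
      rw [mul_pow]
      refine mul_le_mul_of_nonneg_right ?_ (sq_nonneg _)
      rw [← sq_abs (c _)]
      exact pow_le_pow_left₀ (abs_nonneg _) (hDc _) 2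
    simp only [mul_sub, av_sub] at t3
    set P1 := av (B n) (fun m => c (𝔈.S (-(L 0 m)) x, n) * Φ B1 (x, (n, m)))
    set P2 := av (B n) (fun m => c (𝔈.S (-(L 0 m)) x, n) * Φ B2 (x, (n, m)))
    set e := η * (|D| * C + 1) * C
    have t4 : |T B1 (x, n) - T B2 (x, n)| ≤ |P1 - P2| + 2 * e := by
      rw [abs_le] at t1 t2 ⊢
      have := le_abs_self (P1 - P2)
      have := neg_abs_le (P1 - P2)
      constructor <;> linarith
    have he0 : 0 ≤ e := by positivity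
    rw [← sq_abs (T B1 (x, n) - T B2 (x, n))]
    have t5 : |T B1 (x, n) - T B2 (x, n)| ^ 2 ≤ (|P1 - P2| + 2 * e) ^ 2 :=
      pow_le_pow_left₀ (abs_nonneg _) t4 2
    nlinarith [sq_nonneg (|P1 - P2| - 2 * e)]
  -- integrate
  have hsq2 := E2.sqmem (E2.smem (hΦm B1) (hΦm B2))
  have hsq1 := (E1 𝔈).sqmem ((E1 𝔈).smem (hTm B1) (hTm B2))
  have hev := hB' ((B1 ∪ B2).image Neg.neg) η hη
  have fin : (E1 𝔈).E (fun y => (T B1 y - T B2 y) ^ 2) ≤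
      2 * |D| ^ 2 * E2.E (fun y => (Φ B1 y - Φ B2 y) ^ 2) + ε / 2 := by
    have q0 : Bd (fun n => 𝔈.E fun x => (T B1 (x, n) - T B2 (x, n)) ^ 2) := by
      obtain ⟨C, hC⟩ := hsq1.2
      exact ⟨C, fun n => 𝔈.abs_E_le (hsq1.1 n) fun x => hC _⟩
    have q1 : Bd (fun y : ℕ × V => 𝔈.E fun x => (Φ B1 (x, y) - Φ B2 (x, y)) ^ 2) := by
      obtain ⟨C, hC⟩ := hsq2.2
      exact ⟨C, fun n => 𝔈.abs_E_le (hsq2.1 n) fun x => hC _⟩
    have q2 := bd_av B q1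
    have q3 : ul (fun n => 𝔈.E fun x => (T B1 (x, n) - T B2 (x, n)) ^ 2) ≤
        ul (fun n => 2 * |D| ^ 2 * av (B n) (fun m =>
          𝔈.E fun x => (Φ B1 (x, (n, m)) - Φ B2 (x, (n, m))) ^ 2) + ε / 2) := by
      refine ul_le q0 ?_ ?_
      · obtain ⟨C, hC⟩ := q2
        refine ⟨2 * |D| ^ 2 * C + ε / 2, fun n => ?_⟩
        refine (abs_add_le _ _).trans ?_
        rw [abs_mul, abs_of_nonneg (by positivity : 0 ≤ 2 * |D| ^ 2),
          abs_of_pos (by linarith : 0 < ε / 2)]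
        have := mul_le_mul_of_nonneg_left (hC n) (by positivity : 0 ≤ 2 * |D| ^ 2)
        linarith
      · filter_upwards [hev] with n hn
        have w1 : ∀ m, (fun x => (Φ B1 (x, (n, m)) - Φ B2 (x, (n, m))) ^ 2) ∈ 𝔈.A :=
          fun m => hsq2.1 (n, m)
        have w2 := 𝔈.av_mem (B n) _ fun m _ => w1 m
        have w3 := 𝔈.kmem (2 * |D| ^ 2) w2
        have := 𝔈.E_mono (hsq1.1 n) (𝔈.amem _ w3 _ (𝔈.cmem (ε / 2))) (key n hn)
        rw [𝔈.add _ w3 _ (𝔈.cmem _), 𝔈.smul _ _ w2, 𝔈.E_const,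
          𝔈.E_av (B n) _ fun m _ => w1 m] at this
        exact this
    rw [ul_add (by
      obtain ⟨C, hC⟩ := q2
      refine ⟨2 * |D| ^ 2 * C, fun n => ?_⟩
      rw [abs_mul, abs_of_nonneg (by positivity : 0 ≤ 2 * |D| ^ 2)]
      exact mul_le_mul_of_nonneg_left (hC n) (by positivity)) ⟨|ε / 2|, fun _ => le_rfl⟩,
      ul_smul _ q2, ul_const] at q3
    exact q3
  refine fin.trans ?_
  have h9 : 2 * |D| ^ 2 * E2.E (fun y => (Φ B1 y - Φ B2 y) ^ 2) ≤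
      2 * |D| ^ 2 * (ε / (4 * (|D| ^ 2 + 1))) :=
    mul_le_mul_of_nonneg_left hKK (by positivity)
  have h10 : 2 * |D| ^ 2 * (ε / (4 * (|D| ^ 2 + 1))) ≤ ε / 2 := by
    rw [← mul_div_assoc, div_le_iff₀ (by positivity)]
    nlinarith [sq_nonneg |D|]
  linarith

theorem E_sq_av_le {C : ℝ} (hC : 0 ≤ C) (R : Finset V) (s : V → Γ) {a : Ω → ℝ} (ha : a ∈ 𝔈.A)
    (p : V → Ω → ℝ) (hp : ∀ v, p v ∈ 𝔈.A) (hpC : ∀ v x, |p v x| ≤ C) :
    𝔈.E (fun x => (av R fun v => a (𝔈.S (s v) x) * p v x) ^ 2) ≤ C ^ 2 * 𝔈.E (fun x => a x ^ 2) := by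
  have ha2 := 𝔈.sqmem ha
  have m1 : ∀ v ∈ R, (fun x => a (𝔈.S (s v) x) * p v x) ∈ 𝔈.A := fun v _ =>
    𝔈.mmem _ (𝔈.S_mem (s v) _ ha) _ (hp v)
  have m2 : ∀ v ∈ R, (fun x => C ^ 2 * a (𝔈.S (s v) x) ^ 2) ∈ 𝔈.A := fun v _ =>
    𝔈.kmem _ (𝔈.S_mem (s v) _ ha2)
  have h1 := 𝔈.E_mono (𝔈.sqmem (𝔈.av_mem R _ m1)) (𝔈.av_mem R _ m2) (fun x => by
    refine (sq_av_le _ _).trans (av_le fun v _ => ?_)
    rw [mul_pow, mul_comm]
    refine mul_le_mul_of_nonneg_right ?_ (sq_nonneg _)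
    rw [← sq_abs (p v x)]
    exact pow_le_pow_left₀ (abs_nonneg _) (hpC v x) 2)
  refine h1.trans ?_
  rw [𝔈.E_av R _ m2]
  have h2 : ∀ v ∈ R, 𝔈.E (fun x => C ^ 2 * a (𝔈.S (s v) x) ^ 2) = C ^ 2 * 𝔈.E (fun x => a x ^ 2) :=
    fun v _ => by
      rw [𝔈.smul _ _ (𝔈.S_mem (s v) _ ha2), 𝔈.S_inv (s v) _ ha2]
  rw [av_congr h2]
  have h3 : 0 ≤ 𝔈.E (fun x => a x ^ 2) := 𝔈.nonneg _ ha2 fun x => sq_nonneg _
  exact av_le_const (by positivity) fun _ _ => le_rfl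

theorem bd_sl {F : Ω × ℕ → ℝ} (hF : F ∈ (E1 𝔈).A) : Bd (fun n => 𝔈.E fun x => F (x, n)) := by
  obtain ⟨C, hC⟩ := hF.2
  exact ⟨C, fun n => 𝔈.abs_E_le (hF.1 n) fun x => hC _⟩

/-- **approximate projection**: the first function is up to a function with small averages equal
to a good one -/
theorem approx [Countable V] (hP : PLin Γ V k) (hf : ∀ j, f j ∈ 𝔈.A) {f0 : Ω → ℝ}
    (hf0 : f0 ∈ 𝔈.A) {ε : ℝ} (hε : 0 < ε) :
    ∃ h : Ω × ℕ → ℝ, h ∈ (E1 𝔈).A ∧ Cau (E1 𝔈) (fam 𝔈 L f h) ∧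
      ∃ (K : Finset V) (δ : ℝ), 0 < δ ∧ ∀ B : Finset V, Inv K δ B →
        (E1 𝔈).E (fun y => (av B fun v => fam 𝔈 L f (fun y => f0 y.1 - h y) v y) ^ 2) ≤ ε := by
  classical
  obtain ⟨C, hC1, hC⟩ := bdd_all hf
  have hf0' : (fun y : Ω × ℕ => f0 y.1) ∈ (E1 𝔈).A := by
    refine ⟨fun _ => hf0, ?_⟩
    obtain ⟨C, hC⟩ := 𝔈.bdd _ hf0
    exact ⟨C, fun y => hC y.1⟩
  set D : (Ω × ℕ → ℝ) → ℝ := fun h => (E1 𝔈).E (fun y => (f0 y.1 - h y) ^ 2) with hD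
  set Wd : Set ℝ := {r | ∃ h, h ∈ (E1 𝔈).A ∧ Cau (E1 𝔈) (fam 𝔈 L f h) ∧ D h = r} with hWd
  have hne : Wd.Nonempty := by
    refine ⟨D (fun _ => 0), fun _ => 0, (E1 𝔈).cmem 0, ?_, rfl⟩
    intro ε hε
    refine ⟨∅, 1, one_pos, fun B B' hB hB' => ?_⟩
    simp only [fam, zero_mul, av_const hB.1, av_const hB'.1, sub_self, ne_eq, OfNat.ofNat_ne_zero,
      not_false_eq_true, zero_pow]
    rw [(E1 𝔈).E_const]
    exact hε.le
  have hbd : BddBelow Wd := by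
    refine ⟨0, ?_⟩
    rintro r ⟨h, hh, -, rfl⟩
    exact (E1 𝔈).nonneg _ ((E1 𝔈).sqmem ((E1 𝔈).smem hf0' hh)) fun y => sq_nonneg _
  set d := sInf Wd with hd
  have hd0 : 0 ≤ d := by
    refine le_csInf hne ?_
    rintro r ⟨h, hh, -, rfl⟩
    exact (E1 𝔈).nonneg _ ((E1 𝔈).sqmem ((E1 𝔈).smem hf0' hh)) fun y => sq_nonneg _
  set Q : ℝ := C ^ 2 * (C ^ 2 * (d + 1)) + 1 with hQ
  have hQ0 : 0 < Q := by positivity
  set η : ℝ := min 1 (ε ^ 2 / (2 * Q)) with hη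
  have hη0 : 0 < η := lt_min one_pos (by positivity)
  obtain ⟨r, ⟨h, hh, hcau, rfl⟩, hr⟩ := exists_lt_of_csInf_lt hne (lt_add_of_pos_right d hη0)
  refine ⟨h, hh, hcau, ?_⟩
  by_contra hcon
  push Not at hcon
  set g : Ω × ℕ → ℝ := fun y => f0 y.1 - h y with hg
  have hgm : g ∈ (E1 𝔈).A := (E1 𝔈).smem hf0' hh
  obtain ⟨KK, hKK⟩ := exists_exh V
  choose BB hBB1 hBB2 using fun N : ℕ => hcon (KK N) (1 / ((N : ℝ) + 1)) (by positivity)
  have hfg : ∀ R : Finset V, (fun y => av R fun v => fam 𝔈 L f g v y) ∈ (E1 𝔈).A := fun R =>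
    (E1 𝔈).av_mem R _ fun v _ => fam_mem hf hgm v
  obtain ⟨N, hN1, hN2⟩ := diag
    (fun N n => ε < 𝔈.E fun x => (av (BB N) fun v => fam 𝔈 L f g v (x, n)) ^ 2) (fun N => by
      obtain ⟨C', hC'⟩ := bd_sl ((E1 𝔈).sqmem (hfg (BB N)))
      exact (ul_tendsto hC').eventually_const_lt (hBB2 N))
  set B : ℕ → Finset V := fun n => BB (N n) with hB
  have hBne : ∀ n, (B n).Nonempty := fun n => (hBB1 (N n)).1
  have hBinv : ∀ (K : Finset V) (δ : ℝ), 0 < δ → ∀ᶠ n in (up : Filter ℕ), Inv K δ (B n) := by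
    intro K δ hδ
    obtain ⟨N0, hN0⟩ := hKK K
    obtain ⟨N3, hN3⟩ := exists_nat_gt (1 / δ)
    filter_upwards [hN2 (max N0 N3)] with n hn
    refine (hBB1 (N n)).mono (hN0 _ ((le_max_left _ _).trans hn)) ?_
    have h1 : (N3 : ℝ) ≤ N n := by exact_mod_cast (le_max_right N0 N3).trans hn
    rw [div_le_iff₀ (by positivity)]
    rw [div_lt_iff₀ hδ] at hN3
    nlinarith
  -- the test function
  set c : Ω × ℕ → ℝ := fun y => av (B y.2) fun v => fam 𝔈 L f g v y with hc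
  have hcm : c ∈ (E1 𝔈).A := by
    refine ⟨fun n => (hfg (B n)).1 n, ?_⟩
    obtain ⟨G, hG⟩ := hgm.2
    refine ⟨|G| * C, fun y => abs_av_le (by positivity) fun v _ => ?_⟩
    rw [fam, abs_mul]
    exact mul_le_mul ((hG _).trans (le_abs_self G)) (hC (fun j => L j.succ v) fun _ => y.1)
      (abs_nonneg _) (abs_nonneg G)
  set w : Ω × ℕ → ℝ := sg 𝔈 L f B c with hw
  have hwm : w ∈ (E1 𝔈).A := sg_mem hf B hcm
  have hwc : Cau (E1 𝔈) (fam 𝔈 L f w) := sg_cau hP hf B hBne hBinv hcm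
  have hc2m := (E1 𝔈).sqmem hcm
  have hw2m := (E1 𝔈).sqmem hwm
  have hg2m := (E1 𝔈).sqmem hgm
  have hgwm := (E1 𝔈).mmem _ hgm _ hwm
  -- (1) lower bound
  have s1 : ε ≤ (E1 𝔈).E (fun y => c y ^ 2) := by
    have := ul_le (a := fun _ => ε) ⟨|ε|, fun _ => le_rfl⟩ (bd_sl hc2m)
      (by filter_upwards [hN1] with n hn; exact hn.le)
    rwa [ul_const] at this
  -- (2) correlation
  have s2 : (E1 𝔈).E (fun y => g y * w y) = (E1 𝔈).E (fun y => c y ^ 2) := by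
    change ul (fun n => 𝔈.E fun x => g (x, n) * w (x, n)) = ul (fun n => 𝔈.E fun x => c (x, n) ^ 2)
    congr 1
    funext n
    have u0 : ∀ m, (fun x => ∏ j, f j (𝔈.S (L j.succ m - L 0 m) x)) ∈ 𝔈.A := fun m =>
      𝔈.prod_mem univ (fun j x => f j (𝔈.S (L j.succ m - L 0 m) x)) fun j _ => 𝔈.S_mem _ _ (hf j)
    have u1 : ∀ m, (fun x => g (x, n) * (c (𝔈.S (-(L 0 m)) x, n) *
        ∏ j, f j (𝔈.S (L j.succ m - L 0 m) x))) ∈ 𝔈.A := fun m =>
      𝔈.mmem _ (hgm.1 n) _ (𝔈.mmem _ (𝔈.S_mem _ _ (hcm.1 n)) _ (u0 m))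
    have u2 : (fun x => g (x, n) * w (x, n)) = fun x => av (B n) fun m =>
        g (x, n) * (c (𝔈.S (-(L 0 m)) x, n) * ∏ j, f j (𝔈.S (L j.succ m - L 0 m) x)) := by
      funext x
      rw [av_mul_left, hw, sg]
    rw [u2, 𝔈.E_av (B n) _ fun m _ => u1 m]
    have u3 : ∀ m ∈ B n, 𝔈.E (fun x => g (x, n) * (c (𝔈.S (-(L 0 m)) x, n) *
        ∏ j, f j (𝔈.S (L j.succ m - L 0 m) x)))
        = 𝔈.E (fun x => c (x, n) * fam 𝔈 L f g m (x, n)) := by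
      intro m _
      rw [← 𝔈.S_inv (L 0 m) _ (u1 m)]
      congr 1
      funext x
      have v1 : 𝔈.S (-(L 0 m)) (𝔈.S (L 0 m) x) = 𝔈.S 0 x := by
        rw [← 𝔈.S_add, neg_add_cancel]
      have v2 : ∀ j : Fin k, 𝔈.S (L j.succ m - L 0 m) (𝔈.S (L 0 m) x) = 𝔈.S (L j.succ m) x :=
        fun j => by rw [← 𝔈.S_add, sub_add_cancel]
      simp only [v2, fam, tl]
      rw [v1, 𝔈.S_zero]
      ring
    rw [av_congr u3, ← 𝔈.E_av (B n) _ fun m _ => 𝔈.mmem _ (hcm.1 n) _ ((fam_mem hf hgm m).1 n)]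
    congr 1
    funext x
    rw [av_mul_left, pow_two]
  -- (3) upper bounds
  have hD1 : (E1 𝔈).E (fun y => g y ^ 2) ≤ d + 1 := by
    have : (E1 𝔈).E (fun y => g y ^ 2) = D h := rfl
    rw [this]
    exact hr.le.trans (by linarith [min_le_left 1 (ε ^ 2 / (2 * Q))])
  have s3 : (E1 𝔈).E (fun y => c y ^ 2) ≤ C ^ 2 * (E1 𝔈).E (fun y => g y ^ 2) := by
    change ul (fun n => 𝔈.E fun x => c (x, n) ^ 2) ≤ C ^ 2 * ul (fun n => 𝔈.E fun x => g (x, n) ^ 2)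
    rw [← ul_smul _ (bd_sl hg2m)]
    have := bd_sl ((E1 𝔈).kmem (C ^ 2) hg2m)
    refine ul_le (bd_sl hc2m) ?_ (univ_mem' fun n => ?_)
    · obtain ⟨G, hG⟩ := bd_sl hg2m
      exact ⟨C ^ 2 * G, fun n => by
        rw [abs_mul, abs_of_nonneg (by positivity : 0 ≤ C ^ 2)]
        exact mul_le_mul_of_nonneg_left (hG n) (by positivity)⟩
    · exact E_sq_av_le (by linarith) (B n) (fun v => L 0 v) (hgm.1 n) (fun v => tl 𝔈 L f v)
        (fun v => tl_mem hf v) fun v x => hC (fun j => L j.succ v) fun _ => x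
  have s4 : (E1 𝔈).E (fun y => w y ^ 2) ≤ C ^ 2 * (E1 𝔈).E (fun y => c y ^ 2) := by
    change ul (fun n => 𝔈.E fun x => w (x, n) ^ 2) ≤ C ^ 2 * ul (fun n => 𝔈.E fun x => c (x, n) ^ 2)
    rw [← ul_smul _ (bd_sl hc2m)]
    refine ul_le (bd_sl hw2m) ?_ (univ_mem' fun n => ?_)
    · obtain ⟨G, hG⟩ := bd_sl hc2m
      exact ⟨C ^ 2 * G, fun n => by
        rw [abs_mul, abs_of_nonneg (by positivity : 0 ≤ C ^ 2)]
        exact mul_le_mul_of_nonneg_left (hG n) (by positivity)⟩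
    · exact E_sq_av_le (by linarith) (B n) (fun v => -(L 0 v)) (hcm.1 n)
        (fun m x => ∏ j, f j (𝔈.S (L j.succ m - L 0 m) x))
        (fun m => 𝔈.prod_mem univ (fun j x => f j (𝔈.S (L j.succ m - L 0 m) x))
          fun j _ => 𝔈.S_mem _ _ (hf j)) fun m x => hC _ fun _ => x
  have s5 : (E1 𝔈).E (fun y => w y ^ 2) ≤ Q := by
    have h1 : C ^ 2 * (E1 𝔈).E (fun y => g y ^ 2) ≤ C ^ 2 * (d + 1) :=
      mul_le_mul_of_nonneg_left hD1 (by positivity)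
    have h2 : C ^ 2 * (E1 𝔈).E (fun y => c y ^ 2) ≤ C ^ 2 * (C ^ 2 * (d + 1)) :=
      mul_le_mul_of_nonneg_left (s3.trans h1) (by positivity)
    linarith
  -- (4) variation
  set t : ℝ := ε / Q with ht
  have htw := (E1 𝔈).kmem t hwm
  have s6 : d ≤ D (fun y => h y + t * w y) := by
    refine csInf_le hbd ⟨_, (E1 𝔈).amem _ hh _ htw, ?_, rfl⟩
    have := hcau.add (hwc.smul (fun v => fam_mem hf hwm v) t) (fun v => fam_mem hf hh v)
      (fun v => (E1 𝔈).kmem t (fam_mem hf hwm v))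
    have e : fam 𝔈 L f (fun y => h y + t * w y)
        = fun (v : V) (y : Ω × ℕ) => fam 𝔈 L f h v y + t * fam 𝔈 L f w v y := by
      funext v y
      simp only [fam]
      ring
    rw [e]
    exact this
  have s7 : D (fun y => h y + t * w y) = D h - 2 * t * (E1 𝔈).E (fun y => g y * w y)
      + t ^ 2 * (E1 𝔈).E (fun y => w y ^ 2) := by
    have e : (fun y : Ω × ℕ => (f0 y.1 - (h y + t * w y)) ^ 2)
        = fun y => (g y ^ 2 - (2 * t) * (g y * w y)) + t ^ 2 * w y ^ 2 := by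
      funext y; simp only [hg]; ring
    have h1 := (E1 𝔈).kmem (2 * t) hgwm
    have h2 := (E1 𝔈).kmem (t ^ 2) hw2m
    simp only [hD, e]
    rw [(E1 𝔈).add _ ((E1 𝔈).smem hg2m h1) _ h2, (E1 𝔈).E_sub hg2m h1,
      (E1 𝔈).smul _ _ hgwm, (E1 𝔈).smul _ _ hw2m]
  rw [s7, s2] at s6
  have ht0 : 0 < t := by positivity
  have h8 : 2 * t * ε ≤ 2 * t * (E1 𝔈).E (fun y => c y ^ 2) :=
    mul_le_mul_of_nonneg_left s1 (by positivity)
  have h9 : t ^ 2 * (E1 𝔈).E (fun y => w y ^ 2) ≤ t ^ 2 * Q :=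
    mul_le_mul_of_nonneg_left s5 (by positivity)
  have h10 : t * Q = ε := by rw [ht]; field_simp
  have h11 : t ^ 2 * Q = t * ε := by rw [pow_two, mul_assoc, h10]
  have h12 : η ≤ t * ε / 2 := by
    refine (min_le_right _ _).trans (le_of_eq ?_)
    rw [ht]; field_simp
  have h13 : 0 < t * ε := by positivity
  linarith

end step

theorem pLin_succ [Countable V] {k : ℕ} (hP : PLin Γ V k) : PLin Γ V (k + 1) := by
  classical
  intro Ω 𝔈 L f hf ε hε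
  obtain ⟨h, hh, hcau, K, δ, hδ, hK⟩ := approx (L := L) hP (fun j => hf j.succ) (hf 0)
    (show 0 < ε / 9 by linarith)
  obtain ⟨K', δ', hδ', hK'⟩ := hcau (ε / 9) (by linarith)
  refine ⟨K ∪ K', min δ δ', lt_min hδ hδ', fun B B' hB hB' => ?_⟩
  have e1 := hK B (hB.mono subset_union_left (min_le_left _ _))
  have e2 := hK B' (hB'.mono subset_union_left (min_le_left _ _))
  have e3 := hK' B B' (hB.mono subset_union_right (min_le_right _ _))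
    (hB'.mono subset_union_right (min_le_right _ _))
  set f' : Fin k → Ω → ℝ := fun j => f j.succ with hf'
  set g : Ω × ℕ → ℝ := fun y => f 0 y.1 - h y with hg
  have hgm : g ∈ (E1 𝔈).A := by
    refine (E1 𝔈).smem (f := fun y => f 0 y.1) ⟨fun _ => hf 0, ?_⟩ hh
    obtain ⟨C, hC⟩ := 𝔈.bdd _ (hf 0)
    exact ⟨C, fun y => hC y.1⟩
  have ah : ∀ R : Finset V, (fun y => av R fun v => fam 𝔈 L f' h v y) ∈ (E1 𝔈).A := fun R =>
    (E1 𝔈).av_mem R _ fun v _ => fam_mem (fun j => hf j.succ) hh v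
  have ag : ∀ R : Finset V, (fun y => av R fun v => fam 𝔈 L f' g v y) ∈ (E1 𝔈).A := fun R =>
    (E1 𝔈).av_mem R _ fun v _ => fam_mem (fun j => hf j.succ) hgm v
  have split : ∀ (R : Finset V) (y : Ω × ℕ), av R (fun v => ∏ j, f j (𝔈.S (L j v) y.1))
      = av R (fun v => fam 𝔈 L f' h v y) + av R (fun v => fam 𝔈 L f' g v y) := by
    intro R y
    rw [← av_add]
    refine av_congr fun v _ => ?_
    rw [Fin.prod_univ_succ]
    simp only [fam, tl, hg, hf']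
    ring
  have m1 := (E1 𝔈).sqmem ((E1 𝔈).smem (ah B) (ah B'))
  have m2 := (E1 𝔈).sqmem (ag B)
  have m3 := (E1 𝔈).sqmem (ag B')
  have n1 := (E1 𝔈).kmem 3 m1
  have n2 := (E1 𝔈).kmem 3 m2
  have n3 := (E1 𝔈).kmem 3 m3
  have hm : (fun y : Ω × ℕ => (av B (fun v => ∏ j, f j (𝔈.S (L j v) y.1))
      - av B' (fun v => ∏ j, f j (𝔈.S (L j v) y.1))) ^ 2) ∈ (E1 𝔈).A := by
    simp only [split]
    exact (E1 𝔈).sqmem ((E1 𝔈).smem ((E1 𝔈).amem _ (ah B) _ (ag B))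
      ((E1 𝔈).amem _ (ah B') _ (ag B')))
  have key := (E1 𝔈).E_mono hm ((E1 𝔈).amem _ ((E1 𝔈).amem _ n1 _ n2) _ n3) (fun y => by
    rw [split, split]
    set a := av B (fun v => fam 𝔈 L f' h v y)
    set b := av B' (fun v => fam 𝔈 L f' h v y)
    set p := av B (fun v => fam 𝔈 L f' g v y)
    set q := av B' (fun v => fam 𝔈 L f' g v y)
    nlinarith [sq_nonneg ((a - b) - p), sq_nonneg ((a - b) + q), sq_nonneg (p + q)])
  rw [(E1 𝔈).add _ ((E1 𝔈).amem _ n1 _ n2) _ n3, (E1 𝔈).add _ n1 _ n2, (E1 𝔈).smul _ _ m1,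
    (E1 𝔈).smul _ _ m2, (E1 𝔈).smul _ _ m3] at key
  have last : (E1 𝔈).E (fun y : Ω × ℕ => (av B (fun v => ∏ j, f j (𝔈.S (L j v) y.1))
      - av B' (fun v => ∏ j, f j (𝔈.S (L j v) y.1))) ^ 2)
      = 𝔈.E (fun x => (av B (fun v => ∏ j, f j (𝔈.S (L j v) x))
      - av B' (fun v => ∏ j, f j (𝔈.S (L j v) x))) ^ 2) := by
    change ul (fun _ => 𝔈.E (fun x => (av B (fun v => ∏ j, f j (𝔈.S (L j v) x))
      - av B' (fun v => ∏ j, f j (𝔈.S (L j v) x))) ^ 2)) = _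
    exact ul_const _
  rw [last] at key
  linarith

/-- **convergence of averages of products along linear actions** -/
theorem pLin (Γ : Type*) [AddCommGroup Γ] (V : Type) [AddCommGroup V] [Countable V] (k : ℕ) :
    PLin Γ V k := by
  induction k with
  | zero => exact pLin_zero
  | succ k ih => exact pLin_succ ih

end Pool.Agent.H15.E3
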